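import Pool.Agent.H408Z.DP.Defs

/-!
# Random walk on dynamical percolation on a finite graph: uniform mixing times
-/

namespace Pool.Agent.H408Z.Mix

open Pool.Agent.H408Z.DP (opn wt)

variable {V : Type*} [Fintype V] [DecidableEq V] (G : SimpleGraph V) [DecidableRel G.Adj]

/-- The state space `V × {0,1}^E` of the full process. -/
abbrev St : Type _ := V × (G.edgeSet → Bool)

/-- The generator of the full process: at rate one the walker picks a uniform neighbour and moves
there if the edge is open; each edge is resampled at rate `μ`. -/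
noncomputable def gen (μ p : ℝ) (g : St G → ℝ) (s : St G) : ℝ :=
  ∑ y ∈ G.neighborFinset s.1, (G.degree s.1 : ℝ)⁻¹ * opn s.2 s(s.1, y) * (g (y, s.2) - g s) +
    μ * ∑ e : G.edgeSet, (p * g (s.1, Function.update s.2 e true) +
      (1 - p) * g (s.1, Function.update s.2 e false) - g s)

/-- The matrix of jump rates of the full process. -/
noncomputable def genM (μ p : ℝ) : Matrix (St G) (St G) ℝ :=
  Matrix.of fun s s' => gen G μ p (Pi.single s' 1) s

/-- The stationary law of the full process: uniform position, product Bernoulli environment. -/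
noncomputable def stat (p : ℝ) (s : St G) : ℝ := (Fintype.card V : ℝ)⁻¹ * wt p s.2

/-- The matrix of jump rates of rate-one continuous-time simple random walk. -/
noncomputable def srwM : Matrix V V ℝ :=
  Matrix.of fun x z => ∑ y ∈ G.neighborFinset x,
    (G.degree x : ℝ)⁻¹ * ((Pi.single z 1 : V → ℝ) y - (Pi.single z 1 : V → ℝ) x)

/-- The `L^∞` mixing time of the chain with rate matrix `A` and stationary law `π`. -/
noncomputable def tmixInf {I : Type*} [Fintype I] [DecidableEq I] (A : Matrix I I ℝ) (π : I → ℝ) :
    ℝ :=
  sInf {t : ℝ | 0 ≤ t ∧ ∀ z w, |NormedSpace.exp (t • A) z w / π w - 1| ≤ 1 / 4}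

end Pool.Agent.H408Z.Mix
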