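import Pool.Agent.H408Z.DP.Model

/-!
# Fourier analysis on the biased cube, and further spectral lemmas
-/

open Finset Function Matrix NormedSpace

namespace Pool.Agent.H408Z.Mix

open Pool.Agent.H408Z.DP

section cube

variable {ι : Type*} [Fintype ι] [DecidableEq ι] (r : Bool → ℝ)

/-- The orthonormal basis of the functions of one bit. -/
def bas (σ b : Bool) : ℝ := if σ then (if b then -r false else r true) else r b

/-- The product basis. -/
def chi (σ η : ι → Bool) : ℝ := ∏ e, bas r (σ e) (η e)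

variable {r} (hr : r true ^ 2 + r false ^ 2 = 1)
include hr

theorem sum_chi (η ξ : ι → Bool) : ∑ σ, chi r σ η * chi r σ ξ = if η = ξ then 1 else 0 := by
  have h := Finset.prod_univ_sum (fun _ : ι => (univ : Finset Bool))
    fun e b => bas r b (η e) * bas r b (ξ e)
  rw [Fintype.piFinset_univ] at h
  simp only [chi, ← Finset.prod_mul_distrib]
  rw [← h]
  have h1 : ∀ a b : Bool, ∑ c, bas r c a * bas r c b = if a = b then 1 else 0 := by
    intro a b
    cases a <;> cases b <;> simp [bas] <;> nlinarith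
  simp only [h1]
  rw [Finset.prod_boole]
  simp [funext_iff]

theorem chi_unit (σ : ι → Bool) : ∑ η, chi r σ η ^ 2 = 1 := by
  have h := Finset.prod_univ_sum (fun _ : ι => (univ : Finset Bool)) fun e b => bas r (σ e) b ^ 2
  rw [Fintype.piFinset_univ] at h
  simp only [chi, ← Finset.prod_pow]
  rw [← h]
  refine Finset.prod_eq_one fun e _ => ?_
  cases σ e <;> simp [bas] <;> linarith

theorem pars_cube (f g : (ι → Bool) → ℝ) :
    ∑ η, f η * g η = ∑ σ, (∑ η, chi r σ η * f η) * ∑ η, chi r σ η * g η := by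
  simp only [Finset.sum_mul_sum]
  rw [Finset.sum_comm]
  refine Finset.sum_congr rfl fun η _ => ?_
  rw [Finset.sum_comm]
  have h : ∀ ξ, ∑ σ, chi r σ η * f η * (chi r σ ξ * g ξ) = (if η = ξ then 1 else 0) * (f η * g ξ) := by
    intro ξ
    rw [← sum_chi hr, Finset.sum_mul]
    exact Finset.sum_congr rfl fun σ _ => by ring
  simp [h]

theorem SS_chi (e : ι) (σ η : ι → Bool) :
    SS r e (chi r σ) η = (if σ e then 0 else 1) * chi r σ η := by
  have h : ∀ b, chi r σ (update η e b) =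
      bas r (σ e) b * ∏ e' ∈ univ.erase e, bas r (σ e') (η e') := by
    intro b
    unfold chi
    rw [← Finset.mul_prod_erase univ _ (mem_univ e), update_self]
    congr 1
    exact Finset.prod_congr rfl fun e' he => by rw [update_of_ne (Finset.ne_of_mem_erase he)]
  have h1 := h (η e)
  rw [update_eq_self] at h1
  simp only [SS, h, h1]
  generalize ∏ e' ∈ univ.erase e, bas r (σ e') (η e') = q
  cases σ e
  · simp only [bas, Bool.false_eq_true, if_false]
    linear_combination r (η e) * q * hr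
  · simp only [bas, if_true, Bool.false_eq_true, if_false]
    ring

theorem TT_four (e : ι) (f : (ι → Bool) → ℝ) :
    TT r e f = ∑ σ : ι → Bool, (if σ e then 1 else 0) * (∑ η, chi r σ η * f η) ^ 2 := by
  simp only [TT, sq]
  rw [pars_cube hr]
  refine Finset.sum_congr rfl fun σ _ => ?_
  have h : ∑ η, chi r σ η * (f η - SS r e f η) = (if σ e then 1 else 0) * ∑ η, chi r σ η * f η := by
    simp only [mul_sub, Finset.sum_sub_distrib]
    rw [SS_symm]
    simp only [SS_chi hr]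
    cases σ e <;> simp
  rw [h]
  cases σ e <;> simp

omit hr in
theorem sum_weighted (c : ℝ) (η ξ : ι → Bool) :
    ∑ σ : ι → Bool, (∏ e, if σ e then c else 1) * (chi r σ η * chi r σ ξ) =
      ∏ e, (r (η e) * r (ξ e) + c * (bas r true (η e) * bas r true (ξ e))) := by
  have h := Finset.prod_univ_sum (fun _ : ι => (univ : Finset Bool))
    fun e b => (if b then c else 1) * (bas r b (η e) * bas r b (ξ e))
  rw [Fintype.piFinset_univ] at h
  simp only [chi, ← Finset.prod_mul_distrib]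
  rw [← h]
  refine Finset.prod_congr rfl fun e _ => ?_
  simp [bas, add_comm]

omit hr in
theorem sum_weight (c : ℝ) : ∑ σ : ι → Bool, (∏ e, if σ e then c else 1) =
    (1 + c) ^ Fintype.card ι := by
  have h := Finset.prod_univ_sum (fun _ : ι => (univ : Finset Bool))
    fun _ b => (if b then c else 1)
  rw [Fintype.piFinset_univ] at h
  rw [← h]
  simp [add_comm]

omit hr [DecidableEq ι] in
theorem exp_count (a : ℝ) (σ : ι → Bool) :
    Real.exp (a * ∑ e, if σ e then 1 else 0) = ∏ e, if σ e then Real.exp a else 1 := by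
  rw [Finset.mul_sum, Real.exp_sum]
  exact Finset.prod_congr rfl fun e _ => by cases σ e <;> simp

end cube

variable {I : Type*} [Fintype I] [DecidableEq I]

theorem trace_le_of_basis {N : Matrix I I ℝ} (hN : N.IsSymm) {J : Type*} [Fintype J]
    {v : J → I → ℝ} {b : J → ℝ} (h1 : ∀ a, a ⬝ᵥ a = ∑ j, (v j ⬝ᵥ a) ^ 2) (h2 : ∀ j, v j ⬝ᵥ v j = 1)
    (h3 : ∀ a, a ⬝ᵥ N *ᵥ a ≤ ∑ j, (v j ⬝ᵥ a) ^ 2 * b j) {t : ℝ} (ht : 0 ≤ t) :
    ∑ i, exp (t • N) i i ≤ ∑ j, Real.exp (t * b j) := by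
  obtain ⟨E⟩ := exists_eig hN
  rw [E.trace_exp]
  have h4 : ∀ i, Real.exp (t * E.n i) ≤ ∑ j, (v j ⬝ᵥ E.u i) ^ 2 * Real.exp (t * b j) := by
    intro i
    refine le_trans (Real.exp_le_exp.2 ?_) (exp_convex (fun j => sq_nonneg _)
      ((h1 _).symm.trans (E.unit i)))
    rw [← E.n_eq]
    refine (mul_le_mul_of_nonneg_left (h3 _) ht).trans (le_of_eq ?_)
    rw [Finset.mul_sum]
    exact Finset.sum_congr rfl fun j _ => by ring
  refine (Finset.sum_le_sum fun i _ => h4 i).trans (le_of_eq ?_)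
  rw [Finset.sum_comm]
  refine Finset.sum_congr rfl fun j _ => ?_
  rw [← Finset.sum_mul]
  simp only [dotProduct_comm (v j)]
  rw [← E.norm_sq, h2, one_mul]

theorem exp_eq_on {A A' : Matrix I I ℝ} {S : (I → ℝ) → Prop} (h1 : ∀ a, S a → S (A *ᵥ a))
    (h2 : ∀ a, S a → A' *ᵥ a = A *ᵥ a) (t : ℝ) {a : I → ℝ} (ha : S a) :
    exp (t • A') *ᵥ a = exp (t • A) *ᵥ a := by
  have h3 : ∀ n : ℕ, S (A ^ n *ᵥ a) ∧ A' ^ n *ᵥ a = A ^ n *ᵥ a := by
    intro n
    induction n with
    | zero => simpa using ha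
    | succ n ih =>
      rw [pow_succ', pow_succ', ← mulVec_mulVec, ← mulVec_mulVec, ih.2]
      exact ⟨h1 _ ih.1, h2 _ ih.1⟩
  refine (hasSum_exp_mulVec (t • A') a).unique ?_
  simpa only [smul_pow, smul_mulVec, fun n => (h3 n).2] using hasSum_exp_mulVec (t • A) a

theorem exp_add_smul (A : Matrix I I ℝ) (s t : ℝ) :
    exp ((s + t) • A) = exp (s • A) * exp (t • A) := by
  rw [add_smul, Matrix.exp_add_of_commute _ _ (((Commute.refl A).smul_left s).smul_right t)]

theorem exp_nonneg {A : Matrix I I ℝ} (hA : ∀ i j, i ≠ j → 0 ≤ A i j) (i j : I) :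
    0 ≤ exp A i j := by
  have h1 := shift_nonneg hA le_rfl
  have h2 : ∀ n : ℕ, 0 ≤ (A + (∑ i, |A i i|) • 1) ^ n *ᵥ Pi.single j 1 := by
    intro n
    induction n with
    | zero =>
      rw [pow_zero, one_mulVec]
      exact single_nn j
    | succ n ih =>
      rw [pow_succ', ← mulVec_mulVec]
      exact mulVec_nonneg h1 ih
  have h3 : 0 ≤ exp A *ᵥ Pi.single j 1 := by
    rw [exp_shift A (∑ i, |A i i|)]
    exact smul_nonneg (Real.exp_pos _).le ((hasSum_exp_mulVec _ _).nonneg fun n =>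
      smul_nonneg (by positivity) (h2 n))
  simpa using h3 i

theorem norm_exp_sq {A : Matrix I I ℝ} (hA : A.IsSymm) (t : ℝ) (a : I → ℝ) :
    (exp (t • A) *ᵥ a) ⬝ᵥ (exp (t • A) *ᵥ a) = a ⬝ᵥ exp ((t + t) • A) *ᵥ a := by
  rw [exp_add_smul, ← mulVec_mulVec, symm_dot (hA.smul t).exp a]

theorem norm_exp_le {A : Matrix I I ℝ} (hA : A.IsSymm) {c t : ℝ} (ht : 0 ≤ t)
    (hc : ∀ w, w ⬝ᵥ A *ᵥ w ≤ -c * (w ⬝ᵥ w)) (a : I → ℝ) :
    (exp (t • A) *ᵥ a) ⬝ᵥ (exp (t • A) *ᵥ a) ≤ Real.exp (-c * t) ^ 2 * (a ⬝ᵥ a) := by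
  rw [norm_exp_sq hA, sq, ← Real.exp_add]
  have := exp_upper hA (s := 0) (t := t + t) (by linarith) hc a
  simpa [mul_add] using this

theorem dot_sq_le (a b : I → ℝ) : (a ⬝ᵥ b) ^ 2 ≤ (a ⬝ᵥ a) * (b ⬝ᵥ b) := by
  simpa only [dotProduct, sq] using Finset.sum_mul_sq_le_sq_mul_sq univ a b

theorem dot_self_nonneg (a : I → ℝ) : 0 ≤ a ⬝ᵥ a := Finset.sum_nonneg fun _ _ => mul_self_nonneg _

theorem dot_le_sqrt (a b : I → ℝ) : |a ⬝ᵥ b| ≤ √(a ⬝ᵥ a) * √(b ⬝ᵥ b) := by
  rw [← Real.sqrt_mul (dot_self_nonneg a)]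
  exact Real.abs_le_sqrt (dot_sq_le a b)

/-- The triangle inequality for a nonnegative combination of the rows of a matrix. -/
theorem row_norm_le {B K : Matrix I I ℝ} (hB : ∀ i j, 0 ≤ B i j) (z : I) :
    √((B * K) z ⬝ᵥ (B * K) z) ≤ (B *ᵥ fun v => √(K v ⬝ᵥ K v)) z := by
  set n := √((B * K) z ⬝ᵥ (B * K) z) with hn
  have h0 : 0 ≤ n := Real.sqrt_nonneg _
  have h1 : n * n = (B * K) z ⬝ᵥ (B * K) z := Real.mul_self_sqrt (dot_self_nonneg _)
  have h2 : (B * K) z ⬝ᵥ (B * K) z = ∑ v, B z v * (K v ⬝ᵥ (B * K) z) := by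
    conv_lhs => rw [dotProduct]
    simp only [dotProduct, Finset.mul_sum]
    rw [Finset.sum_comm]
    refine Finset.sum_congr rfl fun w _ => ?_
    conv_lhs => arg 1; rw [Matrix.mul_apply]
    rw [Finset.sum_mul]
    exact Finset.sum_congr rfl fun v _ => by ring
  have h3 : n * n ≤ (B *ᵥ fun v => √(K v ⬝ᵥ K v)) z * n := by
    rw [h1, h2, mulVec, dotProduct, Finset.sum_mul]
    refine Finset.sum_le_sum fun v _ => ?_
    rw [mul_assoc]
    exact mul_le_mul_of_nonneg_left ((le_abs_self _).trans (dot_le_sqrt _ _)) (hB z v)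
  rcases h0.eq_or_lt with h | h
  · rw [← h]
    exact mulVec_nonneg hB (fun v => Real.sqrt_nonneg _) z
  · exact le_of_mul_le_mul_right h3 h

end Pool.Agent.H408Z.Mix
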