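import Pool.Agent.H408Z.Mix.Model
import Pool.Agent.H408Z.DP.Main

/-!
# The uniform mixing time of the full process
-/

open Finset Function Matrix NormedSpace Filter Topology

namespace Pool.Agent.H408Z.Mix

open Pool.Agent.H408Z.DP (opn wt opn_nonneg single_nn SS TT rho TT_nonneg sum_rho_sq exp_eigen
  exists_eig Eig symm_dot rt rt_true rt_false rt_sum jensen diag_eq single_unit)

section abstract

variable {I : Type*} [Fintype I] [DecidableEq I] {M : Matrix I I ℝ} {v : I → ℝ}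

theorem exp_fix (hv : M *ᵥ v = 0) (t : ℝ) : exp (t • M) *ᵥ v = v := by
  simpa using exp_eigen (A := t • M) (u := v) (a := 0) (by rw [smul_mulVec, hv]; simp)

theorem row_dot (hM : M.IsSymm) (hv : M *ᵥ v = 0) (h1 : v ⬝ᵥ v = 1) (t : ℝ) (z w : I) :
    (exp (t • M) - vecMulVec v v) z ⬝ᵥ (exp (t • M) - vecMulVec v v) w =
      exp ((t + t) • M) z w - v z * v w := by
  have h2 : ∀ z, (exp (t • M) - vecMulVec v v) z = exp (t • M) z - v z • v := fun z => rfl
  have h3 : ∀ z, exp (t • M) z ⬝ᵥ v = v z := fun z => congrFun (exp_fix hv t) z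
  have h4 : exp (t • M) z ⬝ᵥ exp (t • M) w = exp ((t + t) • M) z w := by
    rw [exp_add_smul, Matrix.mul_apply]
    exact Finset.sum_congr rfl fun x _ => by rw [((hM.smul t).exp).apply x w]
  rw [h2, h2, sub_dotProduct, dotProduct_sub, dotProduct_sub, h4, dotProduct_smul, h3,
    smul_dotProduct, dotProduct_comm v, h3, smul_dotProduct, dotProduct_smul, h1]
  simp only [smul_eq_mul]
  ring

theorem mix_abstract (hM : M.IsSymm) (hoff : ∀ i j, i ≠ j → 0 ≤ M i j) (hv : M *ᵥ v = 0)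
    (h1 : v ⬝ᵥ v = 1) (h0 : ∀ z, 0 ≤ v z) {t₁ s u B γ : ℝ} (ht : 0 ≤ t₁) (hs : 0 ≤ s) (hB0 : 0 ≤ B)
    (hγ : 0 ≤ γ) (hB : ∀ z w, exp (t₁ • M) z w ≤ B * (v z * v w)) (hBγ : B * γ ≤ 1)
    (htr : ∑ z, exp ((u + u) • M) z z ≤ 17 / 16) {S : (I → ℝ) → Prop}
    (hS : ∀ a, S a → v ⬝ᵥ a = 0 →
      (exp (s • M) *ᵥ a) ⬝ᵥ (exp (s • M) *ᵥ a) ≤ γ ^ 2 * (a ⬝ᵥ a))
    (hS' : ∀ c : ℝ, S fun z => √(exp ((u + u) • M) z z - v z * v z) - c * v z) (z w : I) :
    |exp (((t₁ + s + u) + (t₁ + s + u)) • M) z w - v z * v w| ≤ 1 / 4 * (v z * v w) := by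
  set f : I → ℝ := fun z => √(exp ((u + u) • M) z z - v z * v z) with hf
  have hE : ∀ t : ℝ, 0 ≤ t → ∀ i j, 0 ≤ exp (t • M) i j := fun t ht =>
    exp_nonneg fun i j h => mul_nonneg ht (hoff i j h)
  have h2 : f ⬝ᵥ f ≤ (1 / 4) ^ 2 := by
    have h3 : f ⬝ᵥ f = ∑ z, (exp ((u + u) • M) z z - v z * v z) :=
      Finset.sum_congr rfl fun z _ => Real.mul_self_sqrt (by
        rw [← row_dot hM hv h1]
        exact dot_self_nonneg _)
    rw [h3, Finset.sum_sub_distrib]
    have h4 : ∑ z, v z * v z = 1 := h1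
    linarith
  set a : I → ℝ := fun z => f z - (v ⬝ᵥ f) * v z with ha
  have ha' : a = f - (v ⬝ᵥ f) • v := rfl
  have h3 : v ⬝ᵥ a = 0 := by rw [ha', dotProduct_sub, dotProduct_smul, h1]; simp
  have h4 : a ⬝ᵥ a ≤ (1 / 4) ^ 2 := by
    have h5 : a ⬝ᵥ a = f ⬝ᵥ f - (v ⬝ᵥ f) ^ 2 := by
      rw [ha', sub_dotProduct, dotProduct_sub, dotProduct_sub, dotProduct_smul, smul_dotProduct,
        smul_dotProduct, dotProduct_smul, h1, dotProduct_comm f v]
      simp only [smul_eq_mul]
      ring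
    nlinarith [sq_nonneg (v ⬝ᵥ f)]
  have h5 : v ⬝ᵥ f ≤ 1 / 4 := by
    refine (le_abs_self _).trans (abs_le_of_sq_le_sq ?_ (by norm_num))
    have := dot_sq_le v f
    rw [h1] at this
    linarith
  set b := exp (s • M) *ᵥ a with hb
  have h6 : v ⬝ᵥ (fun w => |b w|) ≤ γ * (1 / 4) := by
    refine (le_abs_self _).trans (abs_le_of_sq_le_sq ?_ (by positivity))
    have h7 := dot_sq_le v fun w => |b w|
    have h8 : (fun w => |b w|) ⬝ᵥ (fun w => |b w|) = b ⬝ᵥ b :=
      Finset.sum_congr rfl fun w _ => abs_mul_abs_self _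
    rw [h1, h8] at h7
    have h9 := hS a (hS' _) h3
    nlinarith [mul_le_mul_of_nonneg_left h4 (sq_nonneg γ)]
  have key : ∀ z, √((exp ((t₁ + s + u) • M) - vecMulVec v v) z ⬝ᵥ
      (exp ((t₁ + s + u) • M) - vecMulVec v v) z) ≤ 1 / 2 * v z := by
    intro z
    have h7 : exp ((t₁ + s + u) • M) - vecMulVec v v =
        exp ((t₁ + s) • M) * (exp (u • M) - vecMulVec v v) := by
      rw [Matrix.mul_sub, ← exp_add_smul, mul_vecMulVec, exp_fix hv]
    rw [h7]
    refine (row_norm_le (hE _ (by linarith)) z).trans ?_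
    simp only [row_dot hM hv h1]
    have h8 : f = a + (v ⬝ᵥ f) • v := by rw [ha']; simp
    rw [← hf, h8, mulVec_add, mulVec_smul, exp_fix hv, exp_add_smul, ← mulVec_mulVec, ← hb]
    have h9 : (exp (t₁ • M) *ᵥ b) z ≤ B * v z * (v ⬝ᵥ fun w => |b w|) := by
      rw [mulVec, dotProduct, dotProduct, Finset.mul_sum]
      refine Finset.sum_le_sum fun w _ => ?_
      have h10 := mul_le_mul_of_nonneg_left (le_abs_self (b w)) (hE _ ht z w)
      have h11 := mul_le_mul_of_nonneg_right (hB z w) (abs_nonneg (b w))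
      linarith
    have h10 := mul_le_mul_of_nonneg_left h6 (mul_nonneg hB0 (h0 z))
    have h11 := mul_le_mul_of_nonneg_right hBγ (h0 z)
    have h12 := mul_le_mul_of_nonneg_right h5 (h0 z)
    simp only [Pi.add_apply, Pi.smul_apply, smul_eq_mul]
    linarith
  rw [← row_dot hM hv h1]
  refine (dot_le_sqrt _ _).trans ((mul_le_mul (key z) (key w) (Real.sqrt_nonneg _)
    (mul_nonneg (by norm_num) (h0 z))).trans (le_of_eq ?_))
  ring

end abstract

variable {V : Type*} [Fintype V] [DecidableEq V] {G : SimpleGraph V} [DecidableRel G.Adj]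
  {d : ℕ} (hd : ∀ x, G.degree x = d)

theorem inv_le (d : ℕ) : (d : ℝ)⁻¹ ≤ 1 := Nat.cast_inv_le_one d

include hd

theorem srw_nonpos (E : Eig (srwM G)) (k : V) : E.n k ≤ 0 := by
  rw [← E.n_eq, quad_srwM hd, neg_nonpos]
  exact mul_nonneg (by positivity) (qf_nonneg (fun _ => zero_le_one) _)

theorem srw_one : srwM G *ᵥ (fun _ => 1) = 0 := by
  rw [srwM_mulVec hd]
  funext x
  simp [lapW]

theorem srw_trace [Nonempty V] (E : Eig (srwM G)) {T τ : ℝ} (hT : 0 ≤ T) (hτ : 3 * T ≤ τ)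
    (h : ∑ k, Real.exp (T * E.n k) ≤ 5 / 4) : ∑ k, Real.exp (τ * E.n k) ≤ 65 / 64 := by
  obtain ⟨k₀, hk⟩ : ∃ k, E.u k ⬝ᵥ (fun _ => 1) ≠ 0 := by
    by_contra h1
    push Not at h1
    have h2 := E.norm_sq fun _ => 1
    simp only [h1] at h2
    simp [dotProduct] at h2
  have h1 : E.n k₀ = 0 := by
    have h2 := symm_dot E.symm (E.u k₀) fun _ => 1
    rw [srw_one hd, E.eig, smul_dotProduct, dotProduct_zero, smul_eq_mul] at h2
    exact (mul_eq_zero.1 h2.symm).resolve_right hk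
  rw [← Finset.add_sum_erase _ _ (mem_univ k₀), h1, mul_zero, Real.exp_zero] at h ⊢
  have h2 : ∑ k ∈ univ.erase k₀, Real.exp (τ * E.n k) ≤
      ∑ k ∈ univ.erase k₀, 1 / 16 * Real.exp (T * E.n k) := by
    refine Finset.sum_le_sum fun k hk => ?_
    have h3 : Real.exp (T * E.n k) ≤ 1 / 4 := le_trans (Finset.single_le_sum
      (f := fun k => Real.exp (T * E.n k)) (fun _ _ => (Real.exp_pos _).le) hk) (by linarith)
    have h4 : Real.exp (τ * E.n k) ≤ Real.exp (T * E.n k) ^ 3 := by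
      rw [← Real.exp_nat_mul]
      refine Real.exp_le_exp.2 ?_
      push_cast
      nlinarith [srw_nonpos hd E k]
    have h5 := Real.exp_pos (T * E.n k)
    nlinarith [mul_le_mul h3 h3 h5.le (by norm_num)]
  rw [← Finset.mul_sum] at h2
  linarith

theorem srw_diag (x : V) {T : ℝ} (hT : 0 ≤ T) : Real.exp (-T) ≤ exp (T • srwM G) x x := by
  have h := jensen (srwM_symm hd) T (single_unit x)
  rw [← diag_eq, ← diag_eq (exp (T • srwM G))] at h
  refine le_trans (Real.exp_le_exp.2 ?_) h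
  have h1 : srwM G x x = -(d * (d : ℝ)⁻¹) := by
    have h2 : ∀ y ∈ G.neighborFinset x, (G.degree x : ℝ)⁻¹ *
        ((Pi.single x 1 : V → ℝ) y - (Pi.single x 1 : V → ℝ) x) = -(d : ℝ)⁻¹ := by
      intro y hy
      rw [Pi.single_eq_of_ne (G.ne_of_adj ((G.mem_neighborFinset _ _).1 hy)).symm, hd]
      simp
    rw [srwM, Matrix.of_apply, Finset.sum_congr rfl h2]
    simp [hd]
  have h2 : d * (d : ℝ)⁻¹ ≤ 1 := mul_inv_le_one
  rw [h1]
  nlinarith

theorem srw_mixes (hc : G.Connected) : ∃ T : ℝ, 0 ≤ T ∧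
    ∀ x y, |exp (T • srwM G) x y / (Fintype.card V : ℝ)⁻¹ - 1| ≤ 1 / 4 := by
  have := hc.nonempty
  have hN : (0 : ℝ) < Fintype.card V := by exact_mod_cast Fintype.card_pos
  set A' := srwM G - vecMulVec (fun _ => 1) (fun _ => 1) with hA'
  have hmul : ∀ a, A' *ᵥ a = srwM G *ᵥ a - ((fun _ => 1) ⬝ᵥ a) • fun _ => 1 := by
    intro a
    rw [hA', sub_mulVec, vecMulVec_mulVec]
    simp
  have hs : A'.IsSymm := (srwM_symm hd).sub (by
    ext i j
    simp [vecMulVec_apply])
  obtain ⟨E⟩ := exists_eig hs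
  have hneg : ∀ k, E.n k < 0 := by
    intro k
    have h1 := E.n_eq k
    rw [hmul, dotProduct_sub, quad_srwM hd, dotProduct_smul, dotProduct_comm (E.u k),
      smul_eq_mul] at h1
    have h2 : 0 ≤ (d : ℝ)⁻¹ * qf G (fun _ => 1) (E.u k) :=
      mul_nonneg (by positivity) (qf_nonneg (fun _ => zero_le_one) _)
    have h3 := mul_self_nonneg ((fun _ => 1) ⬝ᵥ E.u k)
    by_contra h4
    have h5 : (fun _ => 1) ⬝ᵥ E.u k = 0 := mul_self_eq_zero.1 (by linarith)
    have h6 : (d : ℝ)⁻¹ * qf G (fun _ => 1) (E.u k) = 0 := by linarith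
    have h7 : ∀ x y, G.Adj x y → E.u k x = E.u k y := by
      intro x y h
      have h8 : (d : ℝ)⁻¹ ≠ 0 := inv_ne_zero (by
        rw [← hd x]
        exact_mod_cast h.degree_pos_left.ne')
      have h9 := (mul_eq_zero.1 h6).resolve_left h8
      rw [qf, Finset.sum_eq_zero_iff_of_nonneg fun _ _ => Finset.sum_nonneg fun _ _ => by
        positivity] at h9
      have h10 := (Finset.sum_eq_zero_iff_of_nonneg fun _ _ => by positivity).1 (h9 x (mem_univ x))
        y ((G.mem_neighborFinset _ _).2 h)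
      simpa [sub_eq_zero] using h10
    have h8 : ∀ x y, E.u k x = E.u k y := by
      intro x y
      obtain ⟨w⟩ := hc.preconnected x y
      induction w with
      | nil => rfl
      | cons h _ ih => exact (h7 _ _ h).trans ih
    obtain ⟨x⟩ := this
    have h9 : E.u k = fun _ => E.u k x := funext fun y => h8 y x
    have h10 := E.unit k
    rw [h9] at h5 h10
    simp only [dotProduct, one_mul, Finset.sum_const, Finset.card_univ, nsmul_eq_mul] at h5 h10
    rw [(mul_eq_zero.1 h5).resolve_left hN.ne'] at h10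
    simp at h10
  have hlim : ∀ a : V → ℝ, Tendsto (fun T : ℝ => (exp (T • A') *ᵥ a) ⬝ᵥ (exp (T • A') *ᵥ a)) atTop
      (𝓝 0) := by
    intro a
    simp only [norm_exp_sq hs, E.quad_exp]
    have h1 := tendsto_finsetSum (univ : Finset V) fun k _ =>
      (Real.tendsto_exp_atBot.comp ((tendsto_id.atTop_add_atTop tendsto_id).atTop_mul_const_of_neg
        (hneg k))).const_mul ((E.u k ⬝ᵥ a) ^ 2)
    simpa using h1
  have hev : ∀ᶠ T : ℝ in atTop, ∀ y : V,
      (exp (T • A') *ᵥ (Pi.single y 1 - (Fintype.card V : ℝ)⁻¹ • fun _ => 1)) ⬝ᵥ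
      (exp (T • A') *ᵥ (Pi.single y 1 - (Fintype.card V : ℝ)⁻¹ • fun _ => 1)) <
        (1 / 4 * (Fintype.card V : ℝ)⁻¹) ^ 2 :=
    eventually_all.2 fun y => (hlim _).eventually (gt_mem_nhds (by positivity))
  obtain ⟨T, h1, h2⟩ := ((eventually_ge_atTop 0).and hev).exists
  refine ⟨T, h1, fun x y => ?_⟩
  have h3 := h2 y
  rw [exp_eq_on (A := srwM G) (S := fun a => (fun _ => 1) ⬝ᵥ a = 0) (fun a _ => by
    rw [symm_dot (srwM_symm hd), srw_one hd, zero_dotProduct]) (fun a ha => by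
    rw [hmul, ha]; simp) T (by
      rw [dotProduct_sub, dotProduct_smul]
      simp [dotProduct, hN.ne', Pi.single_apply]),
    mulVec_sub, mulVec_smul, exp_fix (srw_one hd)] at h3
  have h4 := (Finset.single_le_sum (fun _ _ => mul_self_nonneg _) (mem_univ x)).trans h3.le
  rw [← sq] at h4
  have h5 := abs_le_of_sq_le_sq h4 (by positivity)
  simp only [mulVec_single_one, Pi.sub_apply, Pi.smul_apply, smul_eq_mul, mul_one,
    Matrix.col_apply] at h5
  rw [div_sub_one (by positivity), abs_div, abs_of_pos (inv_pos.2 hN), div_le_iff₀ (inv_pos.2 hN)]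
  exact h5

variable {μ p : ℝ} (hμ : μ ∈ Set.Ioc (0 : ℝ) 1) (hp : p ∈ Set.Ioc (0 : ℝ) 1)
include hμ hp

theorem full_trace (E : Eig (srwM G)) {t : ℝ} (ht : 0 ≤ t) :
    ∑ z, exp (t • symM G (d : ℝ)⁻¹ μ (rt p)) z z ≤ (∑ k, Real.exp (t * (p * μ / 16) * E.n k)) *
      (1 + Real.exp (-(t * μ / 2))) ^ Fintype.card G.edgeSet := by
  have hr := rt_sum hp
  have hv : ∀ (j : V × (G.edgeSet → Bool)) (a : St G → ℝ),
      (fun s : St G => E.u j.1 s.1 * chi (rt p) j.2 s.2) ⬝ᵥ a =
        E.u j.1 ⬝ᵥ fun x => ∑ η, chi (rt p) j.2 η * a (x, η) := by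
    intro j a
    simp only [dotProduct, Fintype.sum_prod_type, Finset.mul_sum, mul_assoc]
  have hq : ∀ (a : St G → ℝ) (c : (G.edgeSet → Bool) → ℝ),
      ∑ x, ∑ σ, c σ * (∑ η, chi (rt p) σ η * a (x, η)) ^ 2 =
      ∑ k, ∑ σ, (E.u k ⬝ᵥ fun x => ∑ η, chi (rt p) σ η * a (x, η)) ^ 2 * c σ := by
    intro a c
    rw [Finset.sum_comm, Finset.sum_comm (γ := V)]
    refine Finset.sum_congr rfl fun σ _ => ?_
    rw [← Finset.mul_sum, ← Finset.sum_mul, ← E.norm_sq, mul_comm]
    simp only [dotProduct, sq]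
  refine (trace_le_of_basis (symM_symm _ _ _) (J := V × (G.edgeSet → Bool))
    (v := fun j s => E.u j.1 s.1 * chi (rt p) j.2 s.2)
    (b := fun j => p * μ / 16 * E.n j.1 - μ / 2 * ∑ e, if j.2 e then 1 else 0)
    (fun a => ?_) (fun j => ?_) (fun a => ?_) ht).trans (le_of_eq ?_)
  · simp only [hv, Fintype.sum_prod_type]
    have h := hq a fun _ => 1
    simp only [one_mul, mul_one] at h
    rw [← h, dotProduct, Fintype.sum_prod_type]
    refine Finset.sum_congr rfl fun x _ => ?_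
    rw [pars_cube hr]
    simp only [sq]
  · rw [hv]
    simp only [mul_left_comm (chi (rt p) j.2 _), ← Finset.mul_sum, ← sq, chi_unit hr, mul_one]
    exact E.unit _
  · have h1 : ∑ x, ∑ e : G.edgeSet, TT (rt p) e (fun η => a (x, η)) =
        ∑ k, ∑ σ, (E.u k ⬝ᵥ fun x => ∑ η, chi (rt p) σ η * a (x, η)) ^ 2 *
          ∑ e, if σ e then 1 else 0 := by
      rw [← hq]
      refine Finset.sum_congr rfl fun x _ => ?_
      simp only [TT_four hr, Finset.sum_mul]
      exact Finset.sum_comm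
    have h2 : -((d : ℝ)⁻¹ * ∑ η, qf G (fun _ => 1) (fun x => a (x, η))) =
        ∑ k, ∑ σ, (E.u k ⬝ᵥ fun x => ∑ η, chi (rt p) σ η * a (x, η)) ^ 2 * E.n k := by
      rw [Finset.sum_comm, Finset.mul_sum, ← Finset.sum_neg_distrib]
      simp only [← E.quad, ← quad_srwM hd]
      have h3 : ∀ b : V → ℝ, b ⬝ᵥ srwM G *ᵥ b = ∑ x, ∑ y, srwM G x y * (b x * b y) := by
        intro b
        simp only [dotProduct, mulVec, Finset.mul_sum, mul_left_comm]
      simp only [h3]
      rw [Finset.sum_comm, Finset.sum_comm (γ := G.edgeSet → Bool)]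
      refine Finset.sum_congr rfl fun x _ => ?_
      rw [Finset.sum_comm, Finset.sum_comm (γ := G.edgeSet → Bool)]
      refine Finset.sum_congr rfl fun y _ => ?_
      rw [← Finset.mul_sum, ← Finset.mul_sum, pars_cube hr]
    simp only [hv, Fintype.sum_prod_type, mul_sub, Finset.sum_sub_distrib,
      mul_left_comm _ (p * μ / 16), mul_left_comm _ (μ / 2), ← Finset.mul_sum]
    rw [← h1, ← h2, quad_symM hr]
    have h3 := form_ineq hr a
    rw [rt_true hp] at h3
    have h4 : 0 ≤ ∑ η, qf G (opn η) (fun x => a (x, η)) :=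
      Finset.sum_nonneg fun η _ => qf_nonneg (opn_nonneg η) _
    have h5 : 0 ≤ ∑ x, ∑ e : G.edgeSet, TT (rt p) e (fun η => a (x, η)) :=
      Finset.sum_nonneg fun _ _ => Finset.sum_nonneg fun _ _ => TT_nonneg _ _
    have h6 : (0 : ℝ) ≤ (d : ℝ)⁻¹ := by positivity
    have h7 := mul_le_mul_of_nonneg_left h3 (mul_nonneg h6 hμ.1.le)
    have h8 := mul_le_mul_of_nonneg_right (inv_le d) (mul_nonneg hμ.1.le h5)
    have h9 := mul_le_mul_of_nonneg_right hμ.2 (mul_nonneg h6 h4)
    have h10 := mul_nonneg hμ.1.le h5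
    have h11 := mul_nonneg h6 h4
    linarith
  · rw [Fintype.sum_prod_type, ← sum_weight, Finset.sum_mul_sum]
    refine Finset.sum_congr rfl fun k _ => Finset.sum_congr rfl fun σ _ => ?_
    rw [← exp_count, ← Real.exp_add]
    congr 1
    ring

omit hd in
theorem env_bound (hp1 : p < 1) {δ t : ℝ} (hδ : 0 ≤ δ) (ht : 0 ≤ t)
    (h : Fintype.card G.edgeSet * Real.exp (-(t * μ)) ≤ p * (1 - p)) (z w : St G) :
    exp (t • symM G δ μ (rt p)) z w ≤ 3 * (rho (rt p) z.2 * rho (rt p) w.2) := by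
  have hr := rt_sum hp
  have hr0 : ∀ b, 0 ≤ rt p b := fun b => by cases b <;> exact Real.sqrt_nonneg _
  have hE := exp_nonneg (A := t • symM G δ μ (rt p)) fun i j h =>
    mul_nonneg ht (symM_offdiag hδ hμ.1.le hr0 i j h)
  have h1 : exp (t • symM G δ μ (rt p)) z w ≤
      (exp (t • symM G δ μ (rt p)) *ᵥ fun s => if w.2 = s.2 then 1 else 0) z := by
    refine le_trans (le_of_eq ?_) (Finset.single_le_sum (f := fun s =>
      exp (t • symM G δ μ (rt p)) z s * if w.2 = s.2 then 1 else 0)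
      (fun s _ => mul_nonneg (hE z s) (by split_ifs <;> norm_num)) (mem_univ w))
    simp
  have h2 : (fun s : St G => if w.2 = s.2 then (1 : ℝ) else 0) =
      ∑ σ, chi (rt p) σ w.2 • fun s : St G => chi (rt p) σ s.2 := by
    funext s
    rw [← sum_chi hr, Finset.sum_apply]
    rfl
  have h3 : ∀ σ, exp (t • symM G δ μ (rt p)) *ᵥ (fun s : St G => chi (rt p) σ s.2) =
      (∏ e, if σ e then Real.exp (-(t * μ)) else 1) • fun s : St G => chi (rt p) σ s.2 := by
    intro σ
    rw [← exp_count]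
    refine exp_eigen ?_
    rw [smul_mulVec, symM_chi hr, smul_smul]
    congr 1
    ring
  rw [h2, mulVec_sum] at h1
  simp only [mulVec_smul, h3, Finset.sum_apply, Pi.smul_apply, smul_eq_mul] at h1
  have h4 := sum_weighted (r := rt p) (Real.exp (-(t * μ))) w.2 z.2
  simp only [mul_left_comm _ (chi (rt p) _ w.2)] at h4
  rw [h4] at h1
  have hq : 0 < p * (1 - p) := mul_pos hp.1 (sub_pos.2 hp1)
  have h5 : ∀ a b, p * (1 - p) ≤ rt p a * rt p b := by
    have h6 : ∀ a, √(p * (1 - p)) ≤ rt p a := by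
      intro a
      cases a <;> refine Real.sqrt_le_sqrt ?_ <;> nlinarith [hp.1]
    intro a b
    rw [← Real.mul_self_sqrt hq.le]
    exact mul_le_mul (h6 a) (h6 b) (Real.sqrt_nonneg _) (hr0 a)
  have h6 : ∀ a, |bas (rt p) true a| ≤ 1 := by
    intro a
    refine abs_le_of_sq_le_sq ?_ zero_le_one
    cases a <;> simp only [bas, if_true, Bool.false_eq_true, if_false] <;>
      nlinarith [sq_nonneg (rt p true), sq_nonneg (rt p false)]
  set c := Real.exp (-(t * μ)) with hc
  have hc0 : 0 < c := Real.exp_pos _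
  have h7 : ∀ a b, |rt p a * rt p b + c * (bas (rt p) true a * bas (rt p) true b)| ≤
      rt p a * rt p b * Real.exp (c / (p * (1 - p))) := by
    intro a b
    have h8 : |bas (rt p) true a * bas (rt p) true b| ≤ 1 := by
      rw [abs_mul]
      exact mul_le_one₀ (h6 a) (abs_nonneg _) (h6 b)
    have h9 := mul_nonneg (hr0 a) (hr0 b)
    refine (abs_add_le _ _).trans ?_
    rw [abs_of_nonneg h9, abs_mul, abs_of_pos hc0]
    have h10 := mul_le_mul_of_nonneg_left (Real.add_one_le_exp (c / (p * (1 - p)))) h9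
    have h11 : c ≤ rt p a * rt p b * (c / (p * (1 - p))) := by
      rw [mul_div_assoc', le_div_iff₀ hq]
      nlinarith [h5 a b]
    nlinarith
  refine h1.trans ((le_abs_self _).trans ?_)
  rw [Finset.abs_prod]
  refine (Finset.prod_le_prod (fun _ _ => abs_nonneg _) fun e _ => h7 _ _).trans ?_
  rw [Finset.prod_mul_distrib, Finset.prod_mul_distrib, Finset.prod_const, Finset.card_univ,
    ← Real.exp_nat_mul, mul_comm, mul_comm (rho (rt p) z.2)]
  refine mul_le_mul_of_nonneg_right ?_ (mul_nonneg (Finset.prod_nonneg fun _ _ => hr0 _)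
    (Finset.prod_nonneg fun _ _ => hr0 _))
  refine (Real.exp_le_exp.2 ?_).trans (Real.exp_one_lt_d9.le.trans (by norm_num))
  rw [mul_div_assoc', div_le_one hq]
  exact h

theorem full_mixes (hp1 : p < 1) (ht : ∀ x y, ∃ φ : G ≃g G, φ x = y) [Nonempty V] {T : ℝ}
    (hT : 0 ≤ T) (h : ∀ x y, |exp (T • srwM G) x y / (Fintype.card V : ℝ)⁻¹ - 1| ≤ 1 / 4)
    {t₁ s u : ℝ} (h1 : 2 * Real.log (Fintype.card V) - Real.log p - Real.log (1 - p) ≤ t₁ * μ)
    (h2 : Real.log 3 + Real.log (Fintype.card V) ≤ s * μ)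
    (h3 : Real.log 32 + 2 * Real.log (Fintype.card V) ≤ u * μ) (h4 : 24 * T ≤ u * (p * μ))
    (z w : St G) :
    |exp (((t₁ + s + u) + (t₁ + s + u)) • genM G μ p) z w / stat G p w - 1| ≤ 1 / 4 := by
  have hr := rt_sum hp
  have hμ0 := hμ.1
  have hp0 := hp.1
  have hq0 : 0 < 1 - p := sub_pos.2 hp1
  have hr0 : ∀ b, 0 < rt p b := fun b => by cases b <;> exact Real.sqrt_pos.2 (by assumption)
  have hρ : ∀ η : G.edgeSet → Bool, 0 < rho (rt p) η := fun η => Finset.prod_pos fun _ _ => hr0 _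
  set N : ℝ := (Fintype.card V : ℝ) with hN
  have hN1 : 1 ≤ N := by
    rw [hN]
    exact_mod_cast Fintype.card_pos
  have hN0 : 0 < N := by linarith
  have hlN := Real.log_nonneg hN1
  have hlp := Real.log_nonpos hp0.le hp.2
  have hlq := Real.log_nonpos hq0.le (by linarith)
  have hE : (Fintype.card G.edgeSet : ℝ) ≤ N ^ 2 := by
    have h5 : Fintype.card G.edgeSet ≤ Fintype.card (V × V) :=
      (Fintype.card_subtype_le _).trans (Fintype.card_le_of_surjective
        (fun q : V × V => s(q.1, q.2)) fun e => Sym2.ind (fun x y => ⟨(x, y), rfl⟩) e)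
    rw [Fintype.card_prod] at h5
    rw [hN, sq]
    exact_mod_cast h5
  have ht₁ : 0 ≤ t₁ := nonneg_of_mul_nonneg_left (by linarith) hμ0
  have hs : 0 ≤ s := nonneg_of_mul_nonneg_left
    (by linarith [Real.log_nonneg (by norm_num : (1 : ℝ) ≤ 3)]) hμ0
  have hu : 0 ≤ u := nonneg_of_mul_nonneg_left
    (by linarith [Real.log_nonneg (by norm_num : (1 : ℝ) ≤ 32)]) hμ0
  have hc : (√N)⁻¹ * (√N)⁻¹ = N⁻¹ := by rw [← mul_inv, Real.mul_self_sqrt hN0.le]
  have hc0 : 0 < (√N)⁻¹ := inv_pos.2 (Real.sqrt_pos.2 hN0)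
  have hvv : ∀ z w : St G, (√N)⁻¹ * rho (rt p) z.2 * ((√N)⁻¹ * rho (rt p) w.2) =
      N⁻¹ * (rho (rt p) z.2 * rho (rt p) w.2) := fun z w => by rw [← hc]; ring
  obtain ⟨E⟩ := exists_eig (srwM_symm hd)
  have key := mix_abstract (M := symM G (d : ℝ)⁻¹ μ (rt p))
    (v := fun s => (√N)⁻¹ * rho (rt p) s.2) (symM_symm _ _ _)
    (symM_offdiag (by positivity) hμ0.le fun b => (hr0 b).le) (symM_rho hr _ _ _) (by
      simp only [dotProduct, hvv, Fintype.sum_prod_type, ← Finset.mul_sum, ← sq, sum_rho_sq hr]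
      simp [← hN, hN0.ne']) (fun z => (mul_pos hc0 (hρ _)).le) (t₁ := t₁) (s := s) (u := u)
    (B := 3 * N) (γ := Real.exp (-μ * s)) ht₁ hs (by positivity) (Real.exp_pos _).le
    (fun z w => by
      rw [hvv]
      refine (env_bound hμ hp hp1 (by positivity) ht₁ ?_ z w).trans (le_of_eq (by field_simp))
      have h5 : Real.exp (-(t₁ * μ)) ≤ p * (1 - p) / N ^ 2 := by
        rw [← Real.exp_log (x := p * (1 - p) / N ^ 2) (by positivity),
          Real.log_div (by positivity) (by positivity), Real.log_mul hp0.ne' hq0.ne', Real.log_pow]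
        exact Real.exp_le_exp.2 (by push_cast; linarith)
      refine (mul_le_mul hE h5 (Real.exp_pos _).le (by positivity)).trans (le_of_eq ?_)
      field_simp)
    (by
      rw [← Real.exp_log (x := 3 * N) (by positivity), ← Real.exp_add,
        Real.log_mul (by norm_num) hN0.ne']
      exact Real.exp_le_one_iff.2 (by linarith))
    (by
      refine (full_trace hd hμ hp E (by linarith)).trans ?_
      have h5 := srw_trace hd E hT (τ := (u + u) * (p * μ / 16)) (by linarith) (by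
        rw [← E.trace_exp]
        have h6 : ∀ x, exp (T • srwM G) x x ≤ 5 / 4 * N⁻¹ := by
          intro x
          rw [← div_le_iff₀ (inv_pos.2 hN0)]
          linarith [(abs_le.1 (h x x)).2]
        refine (Finset.sum_le_sum fun x _ => h6 x).trans (le_of_eq ?_)
        rw [Finset.sum_const, Finset.card_univ, nsmul_eq_mul, ← hN]
        field_simp)
      have h6 : Real.exp (-((u + u) * μ / 2)) ≤ 1 / (32 * N ^ 2) := by
        rw [← Real.exp_log (x := 1 / (32 * N ^ 2)) (by positivity),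
          Real.log_div (by positivity) (by positivity), Real.log_mul (by norm_num) (by positivity),
          Real.log_pow, Real.log_one]
        exact Real.exp_le_exp.2 (by push_cast; linarith)
      have h7 : (1 + Real.exp (-((u + u) * μ / 2))) ^ Fintype.card G.edgeSet ≤ 32 / 31 := by
        refine (pow_le_pow_left₀ (by positivity) ((add_comm _ _).trans_le
          (Real.add_one_le_exp _)) _).trans ?_
        rw [← Real.exp_nat_mul]
        have h8 : Fintype.card G.edgeSet * Real.exp (-((u + u) * μ / 2)) ≤ 1 / 32 :=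
          (mul_le_mul hE h6 (Real.exp_pos _).le (by positivity)).trans (le_of_eq (by field_simp))
        refine (Real.exp_le_exp.2 h8).trans ?_
        refine (Real.exp_bound_div_one_sub_of_interval (by norm_num) (by norm_num)).trans ?_
        norm_num
      refine (mul_le_mul h5 h7 (by positivity) (by norm_num)).trans ?_
      norm_num)
    (S := fun a => ∀ φ : G ≃g G, a ∘ act φ = a)
    (fun a ha ha' => gap_invariant hr (hr0 _).ne' ht (by positivity) hμ0.le hs ha (by
      simp only [dotProduct, mul_assoc, ← Finset.mul_sum] at ha'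
      exact (mul_eq_zero.1 ha').resolve_left hc0.ne'))
    (fun c φ => funext fun z => by simp only [Function.comp_apply, exp_act, rho_act]) z w
  rw [hvv] at key
  have h5 := exp_genM hd (μ := μ) (rt_true hp) (rt_false hp) ((t₁ + s + u) + (t₁ + s + u)) z w
  have h6 : stat G p w = N⁻¹ * rho (rt p) w.2 ^ 2 := by
    rw [stat, wt, rho, ← Finset.prod_pow]
    congr 1
    exact Finset.prod_congr rfl fun e _ => by cases w.2 e <;> simp [rt_true hp, rt_false hp]
  have h7 := hρ z.2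
  have h8 := hρ w.2
  have h9 : exp (((t₁ + s + u) + (t₁ + s + u)) • genM G μ p) z w / stat G p w - 1 =
      (exp (((t₁ + s + u) + (t₁ + s + u)) • symM G (d : ℝ)⁻¹ μ (rt p)) z w -
        N⁻¹ * (rho (rt p) z.2 * rho (rt p) w.2)) / (N⁻¹ * (rho (rt p) z.2 * rho (rt p) w.2)) := by
    rw [h6, eq_div_iff (by positivity), sub_mul, one_mul, sub_left_inj]
    refine mul_right_cancel₀ h8.ne' ?_
    rw [← h5]
    field_simp
  rw [h9, abs_div, abs_of_pos (a := N⁻¹ * _) (by positivity), div_le_iff₀ (by positivity)]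
  exact key

omit hd in
theorem tmix_le (hp1 : p < 1) (hc : G.Connected) (ht : ∀ x y, ∃ φ : G ≃g G, φ x = y) :
    tmixInf (genM G μ p) (stat G p) ≤ 200 * ((μ * p)⁻¹ *
      tmixInf (srwM G) (fun _ => (Fintype.card V : ℝ)⁻¹) + μ⁻¹ * |Real.log (1 - p)|) := by
  have := hc.nonempty
  obtain ⟨o⟩ := hc.nonempty
  have hd : ∀ x, G.degree x = G.degree o := by
    intro x
    obtain ⟨φ, rfl⟩ := ht o x
    simp
  have hμ0 := hμ.1
  have hp0 := hp.1
  have hq0 : 0 < 1 - p := sub_pos.2 hp1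
  have hbdd : BddBelow {t : ℝ | 0 ≤ t ∧
      ∀ z w, |exp (t • genM G μ p) z w / stat G p w - 1| ≤ 1 / 4} := ⟨0, fun t h => h.1⟩
  have key : ∀ T ∈ {t : ℝ | 0 ≤ t ∧
      ∀ z w, |exp (t • srwM G) z w / (Fintype.card V : ℝ)⁻¹ - 1| ≤ 1 / 4},
      tmixInf (genM G μ p) (stat G p) ≤ 200 * ((μ * p)⁻¹ * T + μ⁻¹ * |Real.log (1 - p)|) := by
    rintro T ⟨hT, h⟩
    rcases subsingleton_or_nontrivial V with hV | hV
    · refine le_trans (csInf_le hbdd ⟨le_rfl, fun z w => ?_⟩) (by positivity)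
      have : IsEmpty G.edgeSet := ⟨fun e => by
        obtain ⟨e, he⟩ := e
        induction e using Sym2.ind with
        | h x y => exact (G.ne_of_adj he) (Subsingleton.elim _ _)⟩
      obtain rfl : z = w := Subsingleton.elim _ _
      have h1 : Fintype.card V = 1 := Fintype.card_eq_one_iff.2 ⟨o, fun y => Subsingleton.elim _ _⟩
      simp [stat, wt, h1]
    set N : ℝ := (Fintype.card V : ℝ) with hN
    have hN2 : 2 ≤ N := by
      rw [hN]
      exact_mod_cast Fintype.one_lt_card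
    have h1 : Real.log N ≤ T + Real.log (5 / 4) := by
      have h2 := (abs_le.1 (h o o)).2
      have h3 := srw_diag hd o hT
      rw [div_inv_eq_mul] at h2
      have h4 : Real.exp (-T) * N ≤ 5 / 4 := by nlinarith
      have h5 := Real.log_le_log (by positivity) h4
      rw [Real.log_mul (by positivity) (by positivity), Real.log_exp] at h5
      linarith
    have h2 : Real.log (5 / 4) ≤ 1 / 4 := by
      linarith [Real.log_le_sub_one_of_pos (by norm_num : (0 : ℝ) < 5 / 4)]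
    have h3 : 1 / 2 ≤ Real.log N :=
      le_trans (by linarith [Real.log_two_gt_d9]) (Real.log_le_log (by norm_num) hN2)
    have h4 : Real.log 3 ≤ 2 := by
      linarith [Real.log_le_sub_one_of_pos (by norm_num : (0 : ℝ) < 3)]
    have h5 : Real.log 32 ≤ 5 := by
      rw [show (32 : ℝ) = 2 ^ 5 by norm_num, Real.log_pow]
      push_cast
      linarith [Real.log_two_lt_d9]
    have h6 : -Real.log p ≤ p⁻¹ := by
      have := Real.log_le_sub_one_of_pos (inv_pos.2 hp0)
      rw [Real.log_inv] at this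
      linarith
    have h7 : 1 ≤ p⁻¹ := one_le_inv_iff₀.2 ⟨hp0, hp.2⟩
    have h8 : T ≤ p⁻¹ * T := le_mul_of_one_le_left hT h7
    have h9 : p⁻¹ ≤ 4 * (p⁻¹ * T) := by nlinarith
    have h10 := neg_le_abs (Real.log (1 - p))
    have h11 := abs_nonneg (Real.log (1 - p))
    refine (csInf_le hbdd ⟨?_, full_mixes hd hμ hp hp1 ht hT h
      (t₁ := μ⁻¹ * (8 * (p⁻¹ * T) + |Real.log (1 - p)|)) (s := μ⁻¹ * (10 * (p⁻¹ * T)))
      (u := μ⁻¹ * (24 * (p⁻¹ * T))) ?_ ?_ ?_ (le_of_eq (by field_simp))⟩).trans ?_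
    · positivity
    · rw [mul_comm (μ⁻¹ * _), mul_inv_cancel_left₀ hμ0.ne']
      linarith
    · rw [mul_comm (μ⁻¹ * _), mul_inv_cancel_left₀ hμ0.ne']
      linarith
    · rw [mul_comm (μ⁻¹ * _), mul_inv_cancel_left₀ hμ0.ne']
      linarith
    · have h12 : 0 ≤ μ⁻¹ * (p⁻¹ * T) := by positivity
      have h13 : 0 ≤ μ⁻¹ * |Real.log (1 - p)| := by positivity
      rw [mul_inv, mul_assoc]
      linarith
  have h1 : (tmixInf (genM G μ p) (stat G p) / 200 - μ⁻¹ * |Real.log (1 - p)|) * (μ * p) ≤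
      tmixInf (srwM G) (fun _ => (Fintype.card V : ℝ)⁻¹) := by
    refine le_csInf (srw_mixes hd hc) fun T hT => ?_
    have h2 := key T hT
    rw [← le_div_iff₀ (by positivity), div_eq_inv_mul T]
    linarith
  rw [← le_div_iff₀ (by positivity), div_eq_inv_mul _ (μ * p)] at h1
  linarith

end Pool.Agent.H408Z.Mix
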