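import Pool.Agent.H408Z.Mix.Defs
import Pool.Agent.H408Z.Mix.Four

/-!
# The full process on a finite regular graph: symmetrisation, forms and symmetries
-/

open Finset Function Matrix NormedSpace

namespace Pool.Agent.H408Z.Mix

open Pool.Agent.H408Z.DP (opn wt opn_nonneg of_mulVec isSymm_of single_nn SS TT rho SS_symm TT_eq''
  SS_rho_mul SS_rho edge_ineq TT_nonneg efron_stein sum_rho_sq exp_intertwine exp_eigen exists_eig
  Eig symm_dot)

variable {V : Type*} [Fintype V] [DecidableEq V] {G : SimpleGraph V} [DecidableRel G.Adj]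

theorem swap_sum (f : V → V → ℝ) :
    ∑ x, ∑ y ∈ G.neighborFinset x, f x y = ∑ x, ∑ y ∈ G.neighborFinset x, f y x := by
  simp only [SimpleGraph.neighborFinset_eq_filter, Finset.sum_filter]
  rw [Finset.sum_comm]
  simp only [G.adj_comm]

variable (G) in
/-- The Laplacian with edge weights. -/
noncomputable def lapW (w : Sym2 V → ℝ) (a : V → ℝ) (x : V) : ℝ :=
  ∑ y ∈ G.neighborFinset x, w s(x, y) * (a y - a x)

variable (G) in
/-- Its Dirichlet form. -/
noncomputable def qf (w : Sym2 V → ℝ) (a : V → ℝ) : ℝ :=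
  ∑ x, ∑ y ∈ G.neighborFinset x, 1 / 2 * (w s(x, y) * (a x - a y) ^ 2)

theorem qf_nonneg {w : Sym2 V → ℝ} (hw : ∀ e, 0 ≤ w e) (a : V → ℝ) : 0 ≤ qf G w a :=
  Finset.sum_nonneg fun _ _ => Finset.sum_nonneg fun _ _ =>
    mul_nonneg (by norm_num) (mul_nonneg (hw _) (sq_nonneg _))

theorem lapW_symm (w : Sym2 V → ℝ) (a b : V → ℝ) :
    ∑ x, a x * lapW G w b x = ∑ x, lapW G w a x * b x := by
  simp only [lapW, Finset.mul_sum, Finset.sum_mul, mul_sub, sub_mul, Finset.sum_sub_distrib]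
  rw [swap_sum fun x y => a x * (w s(x, y) * b y)]
  congr 1 <;> refine Finset.sum_congr rfl fun x _ => Finset.sum_congr rfl fun y _ => ?_
  · rw [Sym2.eq_swap]
    ring
  · ring

theorem dot_lapW (w : Sym2 V → ℝ) (a : V → ℝ) : ∑ x, a x * lapW G w a x = -qf G w a := by
  have h := swap_sum (G := G) fun x y => w s(x, y) * a x ^ 2
  have h1 : ∑ x, a x * lapW G w a x + qf G w a = (1 / 2) *
      (∑ x, ∑ y ∈ G.neighborFinset x, w s(y, x) * a y ^ 2 -
      ∑ x, ∑ y ∈ G.neighborFinset x, w s(x, y) * a x ^ 2) := by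
    rw [qf, ← Finset.sum_add_distrib, ← Finset.sum_sub_distrib, Finset.mul_sum]
    refine Finset.sum_congr rfl fun x _ => ?_
    rw [lapW, Finset.mul_sum, ← Finset.sum_add_distrib, ← Finset.sum_sub_distrib, Finset.mul_sum]
    refine Finset.sum_congr rfl fun y _ => ?_
    rw [Sym2.eq_swap (a := y)]
    ring
  rw [h, sub_self] at h1
  linarith

variable (G) in
/-- The Laplacian as a linear map. -/
noncomputable def lapL (δ : ℝ) : (V → ℝ) →ₗ[ℝ] (V → ℝ) where
  toFun a x := δ * lapW G (fun _ => 1) a x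
  map_add' a b := by
    funext x
    simp only [lapW, Pi.add_apply, Finset.mul_sum, ← Finset.sum_add_distrib]
    exact Finset.sum_congr rfl fun y _ => by ring
  map_smul' c a := by
    funext x
    simp only [lapW, Pi.smul_apply, smul_eq_mul, Finset.mul_sum, RingHom.id_apply]
    exact Finset.sum_congr rfl fun y _ => by ring

variable (G) in
/-- The generator as a linear map. -/
noncomputable def genL (μ p : ℝ) : (St G → ℝ) →ₗ[ℝ] (St G → ℝ) where
  toFun := gen G μ p
  map_add' a b := by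
    funext s
    simp only [gen, Pi.add_apply, mul_sub, mul_add, Finset.sum_add_distrib,
      Finset.sum_sub_distrib]
    ring
  map_smul' c a := by
    funext s
    simp only [gen, Pi.smul_apply, smul_eq_mul, RingHom.id_apply, mul_add, Finset.mul_sum]
    congr 1 <;> exact Finset.sum_congr rfl fun _ _ => by ring

variable (G) in
/-- The symmetrised generator. -/
noncomputable def symL (δ μ : ℝ) (r : Bool → ℝ) : (St G → ℝ) →ₗ[ℝ] (St G → ℝ) where
  toFun h s := δ * lapW G (opn s.2) (fun x => h (x, s.2)) s.1 +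
    μ * ∑ e : G.edgeSet, (SS r e (fun η => h (s.1, η)) s.2 - h s)
  map_add' a b := by
    funext s
    simp only [lapW, SS, Pi.add_apply, mul_sub, mul_add, Finset.sum_add_distrib,
      Finset.sum_sub_distrib]
    ring
  map_smul' c a := by
    funext s
    simp only [lapW, SS, Pi.smul_apply, smul_eq_mul, RingHom.id_apply, mul_add, Finset.mul_sum]
    congr 1 <;> exact Finset.sum_congr rfl fun _ _ => by ring

variable (G) in
/-- The matrix of the symmetrised generator. -/
noncomputable def symM (δ μ : ℝ) (r : Bool → ℝ) : Matrix (St G) (St G) ℝ :=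
  Matrix.of fun s s' => symL G δ μ r (Pi.single s' 1) s

theorem symM_mulVec (δ μ : ℝ) (r : Bool → ℝ) (h : St G → ℝ) (s : St G) :
    (symM G δ μ r *ᵥ h) s = δ * lapW G (opn s.2) (fun x => h (x, s.2)) s.1 +
      μ * ∑ e : G.edgeSet, (SS r e (fun η => h (s.1, η)) s.2 - h s) := by
  rw [symM, of_mulVec]
  rfl

theorem dot_symM (δ μ : ℝ) (r : Bool → ℝ) (a b : St G → ℝ) : a ⬝ᵥ symM G δ μ r *ᵥ b =
    δ * ∑ η, ∑ x, a (x, η) * lapW G (opn η) (fun x => b (x, η)) x +
      μ * ∑ x, ∑ e : G.edgeSet, ∑ η, a (x, η) * (SS r e (fun η => b (x, η)) η - b (x, η)) := by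
  rw [Finset.sum_comm, dotProduct, Fintype.sum_prod_type, Finset.mul_sum,
    Finset.mul_sum, ← Finset.sum_add_distrib]
  refine Finset.sum_congr rfl fun x _ => ?_
  rw [Finset.sum_comm (s := (univ : Finset G.edgeSet)), Finset.mul_sum, Finset.mul_sum,
    ← Finset.sum_add_distrib]
  refine Finset.sum_congr rfl fun η _ => ?_
  rw [← Finset.mul_sum, symM_mulVec]
  ring

theorem symM_symm (δ μ : ℝ) (r : Bool → ℝ) : (symM G δ μ r).IsSymm :=
  isSymm_of fun a b => by
    rw [dotProduct_comm _ b, dot_symM, dot_symM]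
    congr 2
    · refine Finset.sum_congr rfl fun η _ => ?_
      rw [lapW_symm]
      exact Finset.sum_congr rfl fun x _ => mul_comm _ _
    · refine Finset.sum_congr rfl fun x _ => Finset.sum_congr rfl fun e _ => ?_
      simp only [mul_sub, Finset.sum_sub_distrib]
      rw [SS_symm]
      simp only [mul_comm]

theorem symM_offdiag {δ μ : ℝ} {r : Bool → ℝ} (hδ : 0 ≤ δ) (hμ : 0 ≤ μ) (hr : ∀ b, 0 ≤ r b)
    (s s' : St G) (h : s ≠ s') : 0 ≤ symM G δ μ r s s' := by
  have h0 : ∀ q, 0 ≤ (Pi.single s' 1 : St G → ℝ) q := single_nn s'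
  have h1 : (Pi.single s' 1 : St G → ℝ) (s.1, s.2) = 0 := Pi.single_eq_of_ne h _
  simp only [symM, Matrix.of_apply, symL, LinearMap.coe_mk, AddHom.coe_mk, lapW, SS, h1, sub_zero]
  exact add_nonneg (mul_nonneg hδ (Finset.sum_nonneg fun y _ => mul_nonneg (opn_nonneg _ _) (h0 _)))
    (mul_nonneg hμ (Finset.sum_nonneg fun e _ => mul_nonneg (hr _)
      (add_nonneg (mul_nonneg (hr _) (h0 _)) (mul_nonneg (hr _) (h0 _)))))

section reg

variable {d : ℕ} (hd : ∀ x, G.degree x = d)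
include hd

theorem srwM_mulVec (a : V → ℝ) : srwM G *ᵥ a = fun x => (d : ℝ)⁻¹ * lapW G (fun _ => 1) a x := by
  have : srwM G = Matrix.of fun x z => lapL G (d : ℝ)⁻¹ (Pi.single z 1) x := by
    ext x z
    simp only [srwM, lapL, lapW, hd, Finset.mul_sum, Matrix.of_apply, LinearMap.coe_mk,
      AddHom.coe_mk, one_mul]
  rw [this, of_mulVec]
  rfl

theorem dot_srwM (a b : V → ℝ) :
    a ⬝ᵥ srwM G *ᵥ b = (d : ℝ)⁻¹ * ∑ x, a x * lapW G (fun _ => 1) b x := by
  rw [srwM_mulVec hd, dotProduct, Finset.mul_sum]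
  exact Finset.sum_congr rfl fun x _ => by ring

theorem srwM_symm : (srwM G).IsSymm :=
  isSymm_of fun a b => by
    rw [dotProduct_comm _ b, dot_srwM hd, dot_srwM hd, lapW_symm]
    simp only [mul_comm]

theorem quad_srwM (a : V → ℝ) : a ⬝ᵥ srwM G *ᵥ a = -((d : ℝ)⁻¹ * qf G (fun _ => 1) a) := by
  rw [dot_srwM hd, dot_lapW, mul_neg]

theorem exp_genM {μ p : ℝ} {r : Bool → ℝ} (h1 : r true ^ 2 = p) (h0 : r false ^ 2 = 1 - p) (t : ℝ)
    (z w : St G) : rho r z.2 * exp (t • genM G μ p) z w =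
      exp (t • symM G (d : ℝ)⁻¹ μ r) z w * rho r w.2 := by
  have hr : r true ^ 2 + r false ^ 2 = 1 := by rw [h1, h0]; ring
  let D : (St G → ℝ) →ₗ[ℝ] (St G → ℝ) :=
    { toFun := fun g s => rho r s.2 * g s
      map_add' := fun a b => by funext s; simp [mul_add]
      map_smul' := fun c a => by funext s; simp; ring }
  have hD : ∀ g, D ((t • genM G μ p) *ᵥ g) = (t • symM G (d : ℝ)⁻¹ μ r) *ᵥ D g := by
    intro g
    have h2 : genM G μ p *ᵥ g = gen G μ p g := of_mulVec (genL G μ p) g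
    rw [smul_mulVec, smul_mulVec, map_smul, h2]
    congr 1
    funext s
    simp only [symM_mulVec, D, LinearMap.coe_mk, AddHom.coe_mk, gen, lapW, hd,
      SS_rho_mul hr _ fun η => g (s.1, η), h1, h0, mul_add, Finset.mul_sum]
    congr 1 <;> exact Finset.sum_congr rfl fun _ _ => by ring
  have h2 := congrFun (exp_intertwine D hD (Pi.single w 1)) z
  have h3 : D (Pi.single w 1) = Pi.single w (rho r w.2) := by
    funext s
    by_cases h : s = w
    · subst h
      simp [D]
    · simp [D, Pi.single_eq_of_ne h]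
  rw [h3] at h2
  simpa [D] using h2

end reg

variable {r : Bool → ℝ} (hr : r true ^ 2 + r false ^ 2 = 1)

include hr in
theorem quad_symM (δ μ : ℝ) (u : St G → ℝ) : u ⬝ᵥ symM G δ μ r *ᵥ u =
    -(δ * ∑ η, qf G (opn η) (fun x => u (x, η))) -
      μ * ∑ x, ∑ e : G.edgeSet, TT r e (fun η => u (x, η)) := by
  rw [dot_symM]
  simp only [dot_lapW, TT_eq'' hr, Finset.sum_neg_distrib]
  ring

include hr in
theorem form_ineq (u : St G → ℝ) : r true ^ 2 * ∑ η, qf G (fun _ => 1) (fun x => u (x, η)) ≤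
    2 * ∑ η, qf G (opn η) (fun x => u (x, η)) +
      4 * ∑ x, ∑ e : G.edgeSet, TT r e (fun η => u (x, η)) := by
  let T : Sym2 V → V → ℝ := fun e y =>
    if h : e ∈ G.edgeSet then TT r (⟨e, h⟩ : G.edgeSet) fun η => u (y, η) else 0
  have hT0 : ∀ e y, 0 ≤ T e y := by
    intro e y
    simp only [T]
    split_ifs
    · exact TT_nonneg _ _
    · exact le_rfl
  have hmem : ∀ {x y}, y ∈ G.neighborFinset x → s(x, y) ∈ G.edgeSet := fun h => by simpa using h
  have hT2 : ∀ x, ∑ y ∈ G.neighborFinset x, T s(x, y) x ≤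
      ∑ e : G.edgeSet, TT r e (fun η => u (x, η)) := by
    intro x
    have h1 : ∑ e : G.edgeSet, TT r e (fun η => u (x, η)) = ∑ e ∈ G.edgeFinset, T e x := by
      rw [Finset.sum_subtype G.edgeFinset (p := fun e => e ∈ G.edgeSet)
        (fun e => SimpleGraph.mem_edgeFinset)]
      exact Finset.sum_congr rfl fun e _ => by simp [T, e.2]
    rw [h1, ← Finset.sum_image (g := fun y => s(x, y)) (f := fun e => T e x)
      fun y _ y' _ h => Sym2.congr_right.1 h]
    refine Finset.sum_le_sum_of_subset_of_nonneg (fun e he => ?_) fun e _ _ => hT0 e x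
    obtain ⟨y, hy, rfl⟩ := Finset.mem_image.1 he
    exact SimpleGraph.mem_edgeFinset.2 (hmem hy)
  have h1 : r true ^ 2 * ∑ η, qf G (fun _ => 1) (fun x => u (x, η)) ≤
      2 * ∑ η, qf G (opn η) (fun x => u (x, η)) +
        2 * ∑ x, ∑ y ∈ G.neighborFinset x, T s(x, y) x +
        2 * ∑ x, ∑ y ∈ G.neighborFinset x, T s(x, y) y := by
    unfold qf
    rw [Finset.sum_comm, Finset.sum_comm (γ := G.edgeSet → Bool)]
    simp only [Finset.mul_sum (s := (univ : Finset V)), ← Finset.sum_add_distrib]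
    refine Finset.sum_le_sum fun x _ => ?_
    rw [Finset.sum_comm, Finset.sum_comm (γ := G.edgeSet → Bool)]
    simp only [Finset.mul_sum (s := G.neighborFinset x), ← Finset.sum_add_distrib]
    refine Finset.sum_le_sum fun y hy => ?_
    have h2 := edge_ineq hr (⟨_, hmem hy⟩ : G.edgeSet) (fun η => u (x, η)) fun η => u (y, η)
    have h3 : ∀ z, T s(x, y) z = TT r (⟨_, hmem hy⟩ : G.edgeSet) (fun η => u (z, η)) :=
      fun z => dif_pos _
    have h4 : ∀ η : G.edgeSet → Bool, opn η s(x, y) = if η ⟨_, hmem hy⟩ then 1 else 0 :=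
      fun η => dif_pos _
    rw [← h3, ← h3] at h2
    simp only [h4, ← Finset.mul_sum, one_mul]
    linarith
  rw [swap_sum fun x y => T s(x, y) y] at h1
  simp only [Sym2.eq_swap (b := _)] at h1
  have h2 : ∑ x, ∑ y ∈ G.neighborFinset x, T s(y, x) x =
      ∑ x, ∑ y ∈ G.neighborFinset x, T s(x, y) x :=
    Finset.sum_congr rfl fun x _ => Finset.sum_congr rfl fun y _ => by rw [Sym2.eq_swap]
  have h3 := Finset.sum_le_sum fun x (_ : x ∈ univ) => hT2 x
  linarith

include hr in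
theorem symM_chi (δ μ : ℝ) (σ : G.edgeSet → Bool) :
    symM G δ μ r *ᵥ (fun s => chi r σ s.2) =
      (-μ * ∑ e, if σ e then 1 else 0) • fun s : St G => chi r σ s.2 := by
  funext s
  rw [symM_mulVec]
  simp only [lapW, sub_self, mul_zero, Finset.sum_const_zero, zero_add, SS_chi hr, Pi.smul_apply,
    smul_eq_mul, Finset.mul_sum, Finset.sum_mul]
  exact Finset.sum_congr rfl fun e _ => by cases σ e <;> simp

include hr in
theorem symM_rho (δ μ c : ℝ) : symM G δ μ r *ᵥ (fun s => c * rho r s.2) = 0 := by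
  funext s
  rw [symM_mulVec]
  have h : ∀ e : G.edgeSet, SS r e (fun η => c * rho r η) s.2 = c * rho r s.2 := by
    intro e
    have := SS_rho_mul hr e (fun _ => c) s.2
    simp only [mul_comm _ c, ← mul_add, hr, mul_one] at this
    exact this
  simp [lapW, h]

/-- The action of an automorphism on the states. -/
def act (φ : G ≃g G) : St G ≃ St G :=
  φ.toEquiv.prodCongr (φ.mapEdgeSet.arrowCongr (Equiv.refl _))

omit [Fintype V] [DecidableEq V] [DecidableRel G.Adj] in
theorem act_apply (φ : G ≃g G) (x : V) (η : G.edgeSet → Bool) :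
    act φ (x, η) = (φ x, η ∘ φ.mapEdgeSet.symm) := rfl

theorem sum_nbr (φ : G ≃g G) (x : V) (f : V → ℝ) :
    ∑ y ∈ G.neighborFinset (φ x), f y = ∑ y ∈ G.neighborFinset x, f (φ y) :=
  (Finset.sum_equiv φ.toEquiv (fun y => by
    simp only [SimpleGraph.mem_neighborFinset]
    exact φ.map_rel_iff.symm) fun _ _ => rfl).symm

theorem symM_act (δ μ : ℝ) (φ : G ≃g G) (g : St G → ℝ) :
    (symM G δ μ r *ᵥ g) ∘ act φ = symM G δ μ r *ᵥ (g ∘ act φ) := by
  funext ⟨x, η⟩
  simp only [Function.comp_apply, symM_mulVec, act_apply, lapW]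
  rw [sum_nbr, ← φ.mapEdgeSet.sum_comp]
  congr 2
  · refine Finset.sum_congr rfl fun y hy => ?_
    have h1 : s(x, y) ∈ G.edgeSet := by simpa using hy
    have h2 : s(φ x, φ y) ∈ G.edgeSet := φ.toHom.map_mem_edgeSet h1
    have h3 : φ.mapEdgeSet ⟨_, h1⟩ = ⟨_, h2⟩ := rfl
    rw [opn, opn, dif_pos h1, dif_pos h2, Function.comp_apply, ← h3, Equiv.symm_apply_apply]
  · refine Finset.sum_congr rfl fun e _ => ?_
    simp only [SS, update_comp_equiv, Function.comp_apply, Equiv.symm_apply_apply, Equiv.symm_symm]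

theorem exp_act (δ μ t : ℝ) (φ : G ≃g G) (z w : St G) :
    exp (t • symM G δ μ r) (act φ z) (act φ w) = exp (t • symM G δ μ r) z w := by
  have h := congrFun (exp_intertwine (A := t • symM G δ μ r) (A' := t • symM G δ μ r)
    (LinearMap.funLeft ℝ ℝ (act φ)) (fun g => by
      rw [smul_mulVec, smul_mulVec, map_smul]
      congr 1
      exact symM_act δ μ φ g) (Pi.single (act φ w) 1)) z
  have h1 : LinearMap.funLeft ℝ ℝ (act φ) (Pi.single (act φ w) 1) = Pi.single w 1 := by
    funext s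
    simp [LinearMap.funLeft_apply, Pi.single_apply]
  rw [h1] at h
  simpa [LinearMap.funLeft_apply] using h

theorem rho_act (φ : G ≃g G) (z : St G) : rho r (act φ z).2 = rho r z.2 :=
  φ.mapEdgeSet.symm.prod_comp fun e => r (z.2 e)

variable (G r) in
/-- The isometry onto the functions that are constant in the environment. -/
noncomputable def WW : Matrix (St G) V ℝ := Matrix.of fun s z => if s.1 = z then rho r s.2 else 0

theorem WW_tr_mulVec (u : St G → ℝ) (x : V) : ((WW G r)ᵀ *ᵥ u) x = ∑ η, rho r η * u (x, η) := by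
  simp only [WW, mulVec, dotProduct, Fintype.sum_prod_type, transpose_apply, Matrix.of_apply]
  rw [Finset.sum_eq_single x (fun y _ hy => by simp [hy]) (by simp)]
  simp

include hr in
theorem es_all (h1 : r true ≠ 0) (u : St G → ℝ) :
    u ⬝ᵥ u - ((WW G r)ᵀ *ᵥ u) ⬝ᵥ ((WW G r)ᵀ *ᵥ u) ≤
      ∑ x, ∑ e : G.edgeSet, TT r e (fun η => u (x, η)) := by
  rw [dotProduct, dotProduct, Fintype.sum_prod_type, ← Finset.sum_sub_distrib]
  refine Finset.sum_le_sum fun x _ => ?_
  simpa only [WW_tr_mulVec, sq] using efron_stein hr h1 fun η => u (x, η)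

include hr in
/-- The spectral gap on invariant functions. -/
theorem gap_invariant (h1 : r true ≠ 0) (ht : ∀ x y, ∃ φ : G ≃g G, φ x = y) {δ μ t : ℝ}
    (hδ : 0 ≤ δ) (hμ : 0 ≤ μ) (h0 : 0 ≤ t) {a : St G → ℝ} (ha : ∀ φ : G ≃g G, a ∘ act φ = a)
    (ha' : (fun s : St G => rho r s.2) ⬝ᵥ a = 0) :
    (exp (t • symM G δ μ r) *ᵥ a) ⬝ᵥ (exp (t • symM G δ μ r) *ᵥ a) ≤
      Real.exp (-μ * t) ^ 2 * (a ⬝ᵥ a) := by
  rw [← exp_eq_on (A' := symM G δ μ r - μ • (WW G r * (WW G r)ᵀ))
    (S := fun a => (∀ φ : G ≃g G, a ∘ act φ = a) ∧ (fun s : St G => rho r s.2) ⬝ᵥ a = 0)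
    (fun a ha => ⟨fun φ => by rw [symM_act, ha.1], by
      have h2 := symM_rho (G := G) hr δ μ 1
      simp only [one_mul] at h2
      rw [symm_dot (symM_symm _ _ _), h2, zero_dotProduct]⟩)
    (fun a ha => ?_) t ⟨ha, ha'⟩]
  · have h4 : (WW G r * (WW G r)ᵀ).IsSymm := by
      rw [Matrix.IsSymm, transpose_mul, transpose_transpose]
    have h5 : (symM G δ μ r - μ • (WW G r * (WW G r)ᵀ)).IsSymm :=
      (symM_symm δ μ r).sub (h4.smul μ)
    refine norm_exp_le h5 h0 (fun w => ?_) a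
    rw [sub_mulVec, dotProduct_sub, smul_mulVec, dotProduct_smul, ← mulVec_mulVec,
      ← DP.dot_tr (WW G r) w ((WW G r)ᵀ *ᵥ w), quad_symM hr, smul_eq_mul]
    have h2 := mul_le_mul_of_nonneg_left (es_all hr h1 w) hμ
    have h3 : 0 ≤ δ * ∑ η, qf G (opn η) (fun x => w (x, η)) :=
      mul_nonneg hδ (Finset.sum_nonneg fun η _ => qf_nonneg (opn_nonneg η) _)
    linarith
  · have h2 : ∀ x y, ((WW G r)ᵀ *ᵥ a) x = ((WW G r)ᵀ *ᵥ a) y := by
      intro x y
      obtain ⟨φ, rfl⟩ := ht x y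
      rw [WW_tr_mulVec, WW_tr_mulVec, ← (φ.mapEdgeSet.arrowCongr (Equiv.refl Bool)).sum_comp
        fun η => rho r η * a (φ x, η)]
      refine Finset.sum_congr rfl fun η _ => ?_
      have h5 : a (x, η) = a (act φ (x, η)) := (congrFun (ha.1 φ) (x, η)).symm
      have h6 : rho r η = rho r (act φ (x, η)).2 := (rho_act φ (x, η)).symm
      rw [h5, h6]
      rfl
    have h3 : ∑ x, ((WW G r)ᵀ *ᵥ a) x = 0 := by
      rw [← ha.2, dotProduct, Fintype.sum_prod_type]
      simp only [WW_tr_mulVec]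
    have h4 : (WW G r)ᵀ *ᵥ a = 0 := by
      funext x
      rw [Finset.sum_congr rfl fun y _ => h2 y x, Finset.sum_const, nsmul_eq_mul] at h3
      have h5 : (0 : ℝ) < (univ : Finset V).card := by
        exact_mod_cast Finset.card_pos.2 ⟨x, mem_univ x⟩
      exact (mul_eq_zero.1 h3).resolve_left h5.ne'
    rw [sub_mulVec, smul_mulVec, ← mulVec_mulVec, h4, mulVec_zero, smul_zero, sub_zero]

end Pool.Agent.H408Z.Mix
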